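import Pool.Agent.Helper13_ABCT.Vrk1

/-!
# ABCT, module VLP: decomposition along an interval (MP_a17fcb_ag)
-/

open MvPolynomial

namespace ABCT.H13

open ABCT

/-- scaling of the closure -/
theorem xv_scale {l : List ℕ} {r : ℕ} {y : Finset ℕ → ℝ} (hy : y ∈ XV l r) (i : ℕ) (s t : ℝ)
    (ht : t ≠ 0) : (fun I => (if i ∈ I then s else t) * y I) ∈ XV l r := by
  intro f hf
  have h1 := hy (bind₁ (fun I => C (((if i ∈ I then s else t : ℝ) : ℝ) : ℂ) * X I) f) ?_
  · rw [aeval_bind₁] at h1
    rw [← h1]
    congr 2
    funext I
    rw [map_mul, aeval_X, aeval_C]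
    push_cast
    rfl
  · intro κ c τ
    rw [aeval_bind₁]
    have h2 : (fun I => aeval (Q l r κ c τ)
        (C (((if i ∈ I then s else t : ℝ) : ℝ) : ℂ) * X I : MvPolynomial (Finset ℕ) ℂ)) =
        Q l r ((t : ℂ) * κ) (Function.update c i (c i * ((s : ℂ) / t))) τ := by
      funext I
      rw [map_mul, aeval_X, aeval_C]
      show (((if i ∈ I then s else t : ℝ) : ℝ) : ℂ) * Q l r κ c τ I = _
      have htc : (t : ℂ) ≠ 0 := by exact_mod_cast ht
      unfold Q
      by_cases hI : I ∈ l.toFinset.powersetCard r
      · rw [if_pos hI, if_pos hI]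
        by_cases hi : i ∈ I
        · rw [if_pos hi, Finset.prod_update_of_mem hi]
          rw [← Finset.mul_prod_erase I c hi, Finset.sdiff_singleton_eq_erase]
          field_simp
        · rw [if_neg hi, Finset.prod_update_of_notMem hi]
          ring
      · rw [if_neg hI, if_neg hI, mul_zero]
    rw [h2]
    exact hf _ _ _

/-- iterated minor: delete `D`, contract `E` -/
def minorv (D E : Finset ℕ) (z : Finset ℕ → ℝ) : Finset ℕ → ℝ :=
  fun I => if Disjoint I (D ∪ E) then z (I ∪ E) else 0

theorem minorv_nonneg {D E : Finset ℕ} {z : Finset ℕ → ℝ} (h : Nonneg z) :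
    Nonneg (minorv D E z) := by
  intro I
  unfold minorv
  split_ifs
  · exact h _
  · exact le_rfl

theorem minor_con (hMin : MinorStmt) {l : List ℕ} {r : ℕ} {z : Finset ℕ → ℝ} (hn : l.Nodup)
    (hz : z ∈ XV l r) (E : Finset ℕ) : E ⊆ l.toFinset → E.card ≤ r →
    minorv ∅ E z ∈ XV (l.filter fun x => x ∉ E) (r - E.card) := by
  induction E using Finset.induction_on with
  | empty =>
    intro _ _
    have h1 : minorv ∅ ∅ z = z := by
      funext I
      simp [minorv]
    have h2 : (l.filter fun x => decide (x ∉ (∅ : Finset ℕ))) = l := by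
      rw [List.filter_eq_self]
      intro x _
      simp
    rw [h1, h2, Finset.card_empty, Nat.sub_zero]
    exact hz
  | insert i E hi ih =>
    intro hE hc
    rw [Finset.card_insert_of_notMem hi] at hc ⊢
    have h1 := ih ((Finset.subset_insert i E).trans hE) (by omega)
    have hil : i ∈ l := List.mem_toFinset.1 (hE (Finset.mem_insert_self i E))
    have h2 := hMin.2.2.2 _ _ i (hn.filter _) (List.mem_filter.2 ⟨hil, by simpa using hi⟩)
      (by omega) _ h1
    have h3 : con i (minorv ∅ E z) = minorv ∅ (insert i E) z := by
      funext I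
      unfold con minorv
      by_cases hI : i ∈ I
      · rw [if_pos hI, if_neg]
        rw [Finset.empty_union]
        exact fun h => Finset.disjoint_left.1 h hI (Finset.mem_insert_self i E)
      · rw [if_neg hI, Finset.empty_union, Finset.empty_union]
        have e1 : Disjoint (insert i I) E ↔ Disjoint I (insert i E) := by
          rw [Finset.disjoint_insert_left, Finset.disjoint_insert_right]
          tauto
        have e2 : insert i I ∪ E = I ∪ insert i E := by
          rw [Finset.insert_union, Finset.union_insert]
        rw [e2]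
        exact if_congr e1 rfl rfl
    have h4 : (l.filter fun x => decide (x ∉ E)).erase i =
        l.filter fun x => decide (x ∉ insert i E) := by
      rw [(hn.filter _).erase_eq_filter, List.filter_filter]
      apply List.filter_congr
      intro x _
      simp [Finset.mem_insert, not_or]
      tauto
    rw [h3, h4, Nat.sub_sub] at h2
    exact h2

theorem minor_mem (hMin : MinorStmt) {l : List ℕ} {r : ℕ} {z : Finset ℕ → ℝ} (hn : l.Nodup)
    (hz : z ∈ XV l r) (D E : Finset ℕ) (hE : E ⊆ l.toFinset) (hc : E.card ≤ r) :
    D ⊆ l.toFinset → Disjoint D E →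
    minorv D E z ∈ XV (l.filter fun x => x ∉ D ∪ E) (r - E.card) := by
  induction D using Finset.induction_on with
  | empty =>
    intro _ _
    have h1 := minor_con hMin hn hz E hE hc
    simpa using h1
  | insert i D hi ih =>
    intro hD hDE
    have h1 := ih ((Finset.subset_insert i D).trans hD)
      (hDE.mono_left (Finset.subset_insert i D))
    have hil : i ∈ l := List.mem_toFinset.1 (hD (Finset.mem_insert_self i D))
    have hiE : i ∉ E := Finset.disjoint_left.1 hDE (Finset.mem_insert_self i D)
    have h2 := hMin.2.2.1 _ _ i (hn.filter _) (List.mem_filter.2 ⟨hil, by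
      simp [hi, hiE]⟩) _ h1
    have h3 : del i (minorv D E z) = minorv (insert i D) E z := by
      funext I
      unfold del minorv
      by_cases hI : i ∈ I
      · rw [if_pos hI, if_neg]
        exact fun h => Finset.disjoint_left.1 h hI
          (Finset.mem_union_left _ (Finset.mem_insert_self i D))
      · rw [if_neg hI]
        refine if_congr ?_ rfl rfl
        rw [Finset.insert_union, Finset.disjoint_insert_right]
        tauto
    have h4 : (l.filter fun x => decide (x ∉ D ∪ E)).erase i =
        l.filter fun x => decide (x ∉ insert i D ∪ E) := by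
      rw [(hn.filter _).erase_eq_filter, List.filter_filter]
      apply List.filter_congr
      intro x _
      simp [Finset.mem_insert, not_or]
      tauto
    rw [h3, h4] at h2
    exact h2

/-- adjacent bases with different levels -/
theorem exists_adj (hPl : PluckerStmt) {l : List ℕ} {r : ℕ} {z : Finset ℕ → ℝ} (hn : l.Nodup)
    (hz : z ∈ XV l r) (A : Finset ℕ) (d : ℕ) : ∀ (n : ℕ) (I₁ I₂ : Finset ℕ),
    (I₂ \ I₁).card = n → z I₁ ≠ 0 → z I₂ ≠ 0 → (I₁ ∩ A).card = d → (I₂ ∩ A).card = d + 1 →
    ∃ (K : Finset ℕ) (a b : ℕ), a ∉ K ∧ b ∉ K ∧ a ∈ A ∧ b ∉ A ∧ z (insert a K) ≠ 0 ∧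
      z (insert b K) ≠ 0 ∧ (K ∩ A).card = d := by
  intro n
  induction n using Nat.strong_induction_on with
  | _ n ih =>
    intro I₁ I₂ hcard h1 h2 hA1 hA2
    have hex : ∃ e ∈ I₂ ∩ A, e ∉ I₁ ∩ A := by
      by_contra hcon
      push Not at hcon
      have := Finset.card_le_card (show I₂ ∩ A ⊆ I₁ ∩ A from hcon)
      omega
    obtain ⟨e, he, he'⟩ := hex
    rw [Finset.mem_inter] at he
    have heI : e ∉ I₁ := fun h => he' (Finset.mem_inter.2 ⟨h, he.2⟩)
    obtain ⟨f, hf1, hf2, hz1, hz2⟩ := hPl.2.1 l r hn z hz I₂ I₁ h2 h1 e he.1 heI
    have hef : e ≠ f := fun h => heI (h ▸ hf1)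
    by_cases hfA : f ∈ A
    · refine ih _ ?_ I₁ (insert f (I₂.erase e)) rfl h1 hz1 hA1 ?_
      · have hsub : insert f (I₂.erase e) \ I₁ ⊆ (I₂ \ I₁).erase e := by
          intro x hx
          rw [Finset.mem_sdiff, Finset.mem_insert, Finset.mem_erase] at hx
          rw [Finset.mem_erase, Finset.mem_sdiff]
          rcases hx.1 with rfl | hx1
          · exact absurd hf1 hx.2
          · exact ⟨hx1.1, hx1.2, hx.2⟩
        have hmem : e ∈ I₂ \ I₁ := Finset.mem_sdiff.2 ⟨he.1, heI⟩
        have h3 := Finset.card_le_card hsub
        rw [Finset.card_erase_of_mem hmem] at h3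
        have h4 : 0 < (I₂ \ I₁).card := Finset.card_pos.2 ⟨e, hmem⟩
        omega
      · have h3 : insert f (I₂.erase e) ∩ A = insert f ((I₂ ∩ A).erase e) := by
          ext x
          simp only [Finset.mem_inter, Finset.mem_insert, Finset.mem_erase]
          constructor
          · rintro ⟨rfl | ⟨hx1, hx2⟩, hxA⟩
            · exact Or.inl rfl
            · exact Or.inr ⟨hx1, hx2, hxA⟩
          · rintro (rfl | ⟨hx1, hx2, hxA⟩)
            · exact ⟨Or.inl rfl, hfA⟩
            · exact ⟨Or.inr ⟨hx1, hx2⟩, hxA⟩
        rw [h3, Finset.card_insert_of_notMem, Finset.card_erase_of_mem (Finset.mem_inter.2 he), hA2]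
        · omega
        · intro h
          exact hf2 (Finset.mem_inter.1 (Finset.mem_erase.1 h).2).1
    · refine ⟨I₂.erase e, e, f, Finset.notMem_erase e I₂, ?_, he.2, hfA, ?_, hz1, ?_⟩
      · intro h
        exact hf2 (Finset.mem_erase.1 h).2
      · rw [Finset.insert_erase he.1]
        exact h2
      · rw [Finset.erase_inter, Finset.card_erase_of_mem (Finset.mem_inter.2 he), hA2]
        omega

/-! ### lists -/

theorem filter_single {l : List ℕ} (hn : l.Nodup) {b : ℕ} (hb : b ∈ l) (p : ℕ → Bool)
    (hp : ∀ x ∈ l, p x = true ↔ x = b) : l.filter p = [b] := by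
  have h1 : l.filter p = l.filter fun x => x == b := by
    apply List.filter_congr
    intro x hx
    rw [Bool.eq_iff_iff, hp x hx, beq_iff_eq]
  rw [h1, List.filter_beq, List.count_eq_one_of_mem hn hb]
  rfl

theorem filter_none {l : List ℕ} (p : ℕ → Bool) (hp : ∀ x ∈ l, p x = false) :
    l.filter p = [] := by
  rw [List.filter_eq_nil_iff]
  intro x hx
  rw [hp x hx]
  simp

theorem filter_all {l : List ℕ} (p : ℕ → Bool) (hp : ∀ x ∈ l, p x = true) :
    l.filter p = l := List.filter_eq_self.2 hp

/-- VLP -/
theorem decomp (hRk : RankOneStmt) (hMin : MinorStmt) (hRen : RenStmt) (hRot : RotStmt)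
    (hPl : PluckerStmt) : DecompStmt := by
  intro L A R r d q hn hq hAne hBne z hz hpos hz0 hlev
  set B : Finset ℕ := (L ++ R).toFinset with hB
  have hLA : ∀ x ∈ L, x ∉ A := fun x hx hxA =>
    (List.nodup_append.1 (List.nodup_append.1 hn).1).2.2 x hx x hxA rfl
  have hAR : ∀ x ∈ A, x ∉ R := fun x hx hxR =>
    (List.nodup_append.1 hn).2.2 x (List.mem_append_right _ hx) x hxR rfl
  have hLR : ∀ x ∈ L, x ∉ R := fun x hx hxR =>
    (List.nodup_append.1 hn).2.2 x (List.mem_append_left _ hx) x hxR rfl
  have nL : L.Nodup := (List.nodup_append.1 (List.nodup_append.1 hn).1).1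
  have nA : A.Nodup := (List.nodup_append.1 (List.nodup_append.1 hn).1).2.1
  have nR : R.Nodup := (List.nodup_append.1 hn).2.1
  have hBmem : ∀ x, x ∈ B ↔ x ∈ L ∨ x ∈ R := by
    intro x
    rw [hB, List.mem_toFinset, List.mem_append]
  have hABd : Disjoint A.toFinset B := by
    rw [Finset.disjoint_left]
    intro x hx hxB
    rw [List.mem_toFinset] at hx
    rcases (hBmem x).1 hxB with h | h
    · exact hLA x h hx
    · exact hAR x hx h
  have hlf : (L ++ A ++ R).toFinset = A.toFinset ∪ B := by
    ext x
    rw [List.mem_toFinset, Finset.mem_union, List.mem_toFinset, hBmem, List.mem_append,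
      List.mem_append]
    tauto
  have hAl : A.toFinset ⊆ (L ++ A ++ R).toFinset := by rw [hlf]; exact Finset.subset_union_left
  have hBl : B ⊆ (L ++ A ++ R).toFinset := by rw [hlf]; exact Finset.subset_union_right
  have supp : ∀ I, z I ≠ 0 → I ⊆ (L ++ A ++ R).toFinset ∧ I.card = r := fun I h =>
    Finset.mem_powersetCard.1 (xv_supp hz h)
  have sB : ∀ I, z I ≠ 0 → I \ A.toFinset ⊆ B := by
    intro I h x hx
    rw [Finset.mem_sdiff] at hx
    have := (supp I h).1 hx.1
    rw [hlf, Finset.mem_union] at this
    tauto
  have csplit : ∀ I : Finset ℕ, (I ∩ A.toFinset).card + (I \ A.toFinset).card = I.card := by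
    intro I
    exact Finset.card_inter_add_card_sdiff I A.toFinset
  have lenA : A.toFinset.card = A.length := List.toFinset_card_of_nodup nA
  have lenB : B.card = (L ++ R).length := by
    rw [hB, List.toFinset_card_of_nodup]
    rw [List.nodup_append]
    exact ⟨nL, nR, fun x hx y hy hxy => hLR x hx (hxy ▸ hy)⟩
  -- values of products
  have hcard : ∀ (X Y : Finset ℕ), X ⊆ A.toFinset → Disjoint Y A.toFinset → z (X ∪ Y) ≠ 0 →
      X.card + Y.card = r := by
    intro X Y hX hY h
    rw [← (supp _ h).2, Finset.card_union_of_disjoint (hY.mono_right hX).symm]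
  by_cases hboth : (∃ I, z I ≠ 0 ∧ (I ∩ A.toFinset).card = d) ∧
      (∃ I, z I ≠ 0 ∧ (I ∩ A.toFinset).card = d + 1)
  · left
    obtain ⟨⟨I₁, hI₁, hI₁d⟩, I₂, hI₂, hI₂d⟩ := hboth
    obtain ⟨K, a, b, haK, hbK, haA, hbA, hza, hzb, hKd⟩ :=
      exists_adj hPl hn hz A.toFinset d _ I₁ I₂ rfl hI₁ hI₂ hI₁d hI₂d
    have hab : a ≠ b := fun h => hbA (h ▸ haA)
    have hbB : b ∈ B := sB _ hzb (Finset.mem_sdiff.2 ⟨Finset.mem_insert_self b K, hbA⟩)
    have haAl : a ∈ A := List.mem_toFinset.1 haA
    have hbAl : b ∉ A := fun h => hbA (List.mem_toFinset.2 h)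
    set KA := K ∩ A.toFinset with hKA
    set KB := K \ A.toFinset with hKB
    have hK : KA ∪ KB = K := by rw [Finset.union_comm]; exact Finset.sdiff_union_inter K A.toFinset
    have hKAs : KA ⊆ A.toFinset := Finset.inter_subset_right
    have hKBs : KB ⊆ B := by
      intro x hx
      rw [hKB, Finset.mem_sdiff] at hx
      exact sB _ hza (Finset.mem_sdiff.2 ⟨Finset.mem_insert_of_mem hx.1, hx.2⟩)
    have hKBd : Disjoint KB A.toFinset := Finset.sdiff_disjoint
    have haKA : a ∉ KA := fun h => haK (Finset.mem_inter.1 h).1
    have hbKB : b ∉ KB := fun h => hbK (Finset.mem_sdiff.1 h).1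
    have hKcard : K.card + 1 = r := by
      rw [← (supp _ hza).2, Finset.card_insert_of_notMem haK]
    have hKBc : d + KB.card + 1 = r := by
      have := csplit K
      rw [← hKA, ← hKB, hKd] at this
      omega
    have hqA : q ∉ A := fun h => hq (by simp [h])
    have hqL : q ∉ L := fun h => hq (by simp [h])
    have hqR : q ∉ R := fun h => hq (by simp [h])
    have hqB : q ∉ B := fun h => by
      rcases (hBmem q).1 h with h | h
      · exact hqL h
      · exact hqR h
    -- the first minor
    have hbr : b ∉ (B.erase b \ KB) ∪ KB := by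
      rw [Finset.mem_union, Finset.mem_sdiff, Finset.mem_erase]
      tauto
    have hDA : (B.erase b \ KB) ∪ KB = B.erase b := by
      apply Finset.sdiff_union_of_subset
      intro x hx
      rw [Finset.mem_erase]
      exact ⟨fun h => hbKB (h ▸ hx), hKBs hx⟩
    have hA1 := minor_mem hMin hn hz (B.erase b \ KB) KB (hKBs.trans hBl) (by omega)
      ((Finset.sdiff_subset.trans (Finset.erase_subset b B)).trans hBl) Finset.sdiff_disjoint
    rw [hDA, show r - KB.card = d + 1 by omega] at hA1
    set mA := minorv (B.erase b \ KB) KB z with hmA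
    have hA2 : mA ∈ XV (A ++ [b]) (d + 1) := by
      have fA : (A.filter fun x => decide (x ∉ B.erase b)) = A := by
        apply filter_all
        intro x hx
        rw [decide_eq_true_iff]
        intro h
        exact Finset.disjoint_left.1 hABd (List.mem_toFinset.2 hx) (Finset.mem_of_mem_erase h)
      rcases (hBmem b).1 hbB with hbL | hbR
      · have fL : (L.filter fun x => decide (x ∉ B.erase b)) = [b] := by
          apply filter_single nL hbL
          intro x hx
          rw [decide_eq_true_iff, Finset.mem_erase, hBmem]
          tauto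
        have fR : (R.filter fun x => decide (x ∉ B.erase b)) = [] := by
          apply filter_none
          intro x hx
          rw [decide_eq_false_iff_not, not_not, Finset.mem_erase, hBmem]
          exact ⟨fun h => hLR b hbL (h ▸ hx), Or.inr hx⟩
        rw [List.filter_append, List.filter_append, fL, fA, fR, List.append_nil] at hA1
        have := hRot.2 A (d + 1) b (List.nodup_cons.2 ⟨hbAl, nA⟩)
        rw [← this]
        exact hA1
      · have fR : (R.filter fun x => decide (x ∉ B.erase b)) = [b] := by
          apply filter_single nR hbR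
          intro x hx
          rw [decide_eq_true_iff, Finset.mem_erase, hBmem]
          tauto
        have fL : (L.filter fun x => decide (x ∉ B.erase b)) = [] := by
          apply filter_none
          intro x hx
          rw [decide_eq_false_iff_not, not_not, Finset.mem_erase, hBmem]
          exact ⟨fun h => hLR x hx (h ▸ hbR), Or.inl hx⟩
        rw [List.filter_append, List.filter_append, fL, fA, fR, List.nil_append] at hA1
        exact hA1
    have hbq : b ≠ q := fun h => hqB (h ▸ hbB)
    have haq : a ≠ q := fun h => hqA (h ▸ haAl)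
    have hA3 := (hRen A [] b q (d + 1) (by
      rw [List.append_nil, List.nodup_append]
      refine ⟨nA, List.nodup_singleton b, ?_⟩
      intro x hx y hy hxy
      rw [List.mem_singleton] at hy
      exact hbAl (hy ▸ hxy ▸ hx)) (by
      rw [List.append_nil, List.mem_append, List.mem_singleton]
      rintro (h | h)
      · exact hqA h
      · exact hbq h.symm) mA).2 (by rw [List.append_nil]; exact hA2)
    rw [List.append_nil] at hA3
    set y0 : Finset ℕ → ℝ := fun I => if b ∈ I then 0 else
      if q ∈ I then mA (insert b (I.erase q)) else mA I with hy0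
    -- the second minor
    have hDB : (A.toFinset.erase a \ KA) ∪ KA = A.toFinset.erase a := by
      apply Finset.sdiff_union_of_subset
      intro x hx
      rw [Finset.mem_erase]
      exact ⟨fun h => haKA (h ▸ hx), hKAs hx⟩
    have hB1 := minor_mem hMin hn hz (A.toFinset.erase a \ KA) KA (hKAs.trans hAl) (by omega)
      ((Finset.sdiff_subset.trans (Finset.erase_subset a _)).trans hAl) Finset.sdiff_disjoint
    rw [hDB, hKd] at hB1
    set mB := minorv (A.toFinset.erase a \ KA) KA z with hmB
    have hB2 : mB ∈ XV (L ++ [a] ++ R) (r - d) := by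
      have fL : (L.filter fun x => decide (x ∉ A.toFinset.erase a)) = L := by
        apply filter_all
        intro x hx
        rw [decide_eq_true_iff, Finset.mem_erase, List.mem_toFinset]
        exact fun h => hLA x hx h.2
      have fR : (R.filter fun x => decide (x ∉ A.toFinset.erase a)) = R := by
        apply filter_all
        intro x hx
        rw [decide_eq_true_iff, Finset.mem_erase, List.mem_toFinset]
        exact fun h => hAR x h.2 hx
      have fA : (A.filter fun x => decide (x ∉ A.toFinset.erase a)) = [a] := by
        apply filter_single nA haAl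
        intro x hx
        rw [decide_eq_true_iff, Finset.mem_erase, List.mem_toFinset]
        tauto
      rw [List.filter_append, List.filter_append, fL, fA, fR] at hB1
      exact hB1
    have haL : a ∉ L := fun h => hLA a h haAl
    have haR : a ∉ R := hAR a haAl
    have hB3 := (hRen L R a q (r - d) (by
      rw [List.nodup_append, List.nodup_append]
      refine ⟨⟨nL, List.nodup_singleton a, ?_⟩, nR, ?_⟩
      · intro x hx y hy hxy
        rw [List.mem_singleton] at hy
        exact haL (hy ▸ hxy ▸ hx)
      · intro x hx y hy hxy
        rw [List.mem_append, List.mem_singleton] at hx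
        rcases hx with hx | hx
        · exact hLR x hx (hxy ▸ hy)
        · exact haR (hx ▸ hxy ▸ hy)) (by
      rw [List.mem_append, List.mem_append, List.mem_singleton]
      rintro ((h | h) | h)
      · exact hqL h
      · exact haq h.symm
      · exact hqR h) mB).2 hB2
    set x0 : Finset ℕ → ℝ := fun I => if a ∈ I then 0 else
      if q ∈ I then mB (insert a (I.erase q)) else mB I with hx0
    -- values
    have vA1 : ∀ X : Finset ℕ, X ⊆ A.toFinset → y0 X = z (X ∪ KB) := by
      intro X hX
      have h1 : b ∉ X := fun h => hbA (hX h)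
      have h2 : q ∉ X := fun h => hqA (List.mem_toFinset.1 (hX h))
      rw [hy0]
      simp only
      rw [if_neg h1, if_neg h2, hmA]
      unfold minorv
      rw [if_pos]
      rw [hDA]
      exact (hABd.mono_left hX).mono_right (Finset.erase_subset b B)
    have vA2 : ∀ X : Finset ℕ, X ⊆ A.toFinset → y0 (insert q X) = z (X ∪ insert b KB) := by
      intro X hX
      have h1 : b ∉ insert q X := by
        rw [Finset.mem_insert]
        rintro (h | h)
        · exact hbq h
        · exact hbA (hX h)
      have h2 : q ∉ X := fun h => hqA (List.mem_toFinset.1 (hX h))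
      rw [hy0]
      simp only
      rw [if_neg h1, if_pos (Finset.mem_insert_self q X), Finset.erase_insert h2, hmA]
      unfold minorv
      rw [if_pos, Finset.insert_union, Finset.union_insert]
      rw [hDA, Finset.disjoint_insert_left]
      exact ⟨Finset.notMem_erase b B, (hABd.mono_left hX).mono_right (Finset.erase_subset b B)⟩
    have vB1 : ∀ X : Finset ℕ, Disjoint X A.toFinset → q ∉ X → x0 X = z (KA ∪ X) := by
      intro X hX h2
      have h1 : a ∉ X := fun h => Finset.disjoint_left.1 hX h haA
      rw [hx0]
      simp only
      rw [if_neg h1, if_neg h2, hmB]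
      unfold minorv
      rw [if_pos, Finset.union_comm]
      rw [hDB]
      exact hX.mono_right (Finset.erase_subset a _)
    have vB2 : ∀ X : Finset ℕ, Disjoint X A.toFinset → q ∉ X →
        x0 (insert q X) = z (insert a KA ∪ X) := by
      intro X hX h2
      have h1 : a ∉ insert q X := by
        rw [Finset.mem_insert]
        rintro (h | h)
        · exact haq h
        · exact Finset.disjoint_left.1 hX h haA
      rw [hx0]
      simp only
      rw [if_neg h1, if_pos (Finset.mem_insert_self q X), Finset.erase_insert h2, hmB]
      unfold minorv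
      rw [if_pos, Finset.insert_union, Finset.insert_union, Finset.union_comm]
      rw [hDB, Finset.disjoint_insert_left]
      exact ⟨Finset.notMem_erase a _, hX.mono_right (Finset.erase_subset a _)⟩
    have k1 : z (KA ∪ insert b KB) = z (insert b K) := by rw [Finset.union_insert, hK]
    have k2 : z (insert a KA ∪ KB) = z (insert a K) := by rw [Finset.insert_union, hK]
    have p1 : 0 < z (insert b K) := lt_of_le_of_ne (hpos _) (Ne.symm hzb)
    have p2 : 0 < z (insert a K) := lt_of_le_of_ne (hpos _) (Ne.symm hza)
    have hbKBd : Disjoint (insert b KB) A.toFinset := by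
      rw [Finset.disjoint_insert_left]
      exact ⟨hbA, hKBd⟩
    have haKAs : insert a KA ⊆ A.toFinset := by
      intro x hx
      rcases Finset.mem_insert.1 hx with rfl | hx
      · exact haA
      · exact hKAs hx
    refine ⟨fun I => (if q ∈ I then 1 / z (insert b K) else 1 / z (insert a K)) * y0 I,
      xv_scale hA3 q _ _ (by positivity), x0, hB3, ?_, ?_, ?_, ?_, ?_, ?_, ?_, ?_, ?_⟩
    · intro I
      have : 0 ≤ y0 I := by
        rw [hy0]
        simp only
        have := minorv_nonneg (D := B.erase b \ KB) (E := KB) hpos
        split_ifs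
        · exact le_rfl
        · exact this _
        · exact this _
      show 0 ≤ (if q ∈ I then 1 / z (insert b K) else 1 / z (insert a K)) * y0 I
      split_ifs
      · positivity
      · positivity
    · intro I
      rw [hx0]
      simp only
      have := minorv_nonneg (D := A.toFinset.erase a \ KA) (E := KA) hpos
      split_ifs
      · exact le_rfl
      · exact this _
      · exact this _
    · have hqKA : q ∉ insert a KA := fun h => hqA (List.mem_toFinset.1 (haKAs h))
      refine ⟨⟨insert q KA, ?_, Finset.mem_insert_self q KA⟩, insert a KA, ?_, hqKA⟩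
      · show (if q ∈ insert q KA then 1 / z (insert b K) else 1 / z (insert a K)) *
          y0 (insert q KA) ≠ 0
        rw [if_pos (Finset.mem_insert_self q KA), vA2 KA hKAs, k1]
        positivity
      · show (if q ∈ insert a KA then 1 / z (insert b K) else 1 / z (insert a K)) *
          y0 (insert a KA) ≠ 0
        rw [if_neg hqKA, vA1 _ haKAs, k2]
        positivity
    · have hqKB : q ∉ insert b KB := by
        rw [Finset.mem_insert]
        rintro (h | h)
        · exact hbq h.symm
        · exact hqB (hKBs h)
      refine ⟨⟨insert q KB, ?_, Finset.mem_insert_self q KB⟩, insert b KB, ?_, hqKB⟩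
      · rw [vB2 KB hKBd (fun h => hqB (hKBs h)), k2]
        exact hza
      · rw [vB1 _ hbKBd hqKB, k1]
        exact hzb
    · have := Finset.card_le_card haKAs
      rw [Finset.card_insert_of_notMem haKA, hKd, lenA] at this
      exact this
    · omega
    · omega
    · have hs : insert b KB ⊆ B := by
        intro x hx
        rcases Finset.mem_insert.1 hx with rfl | hx
        · exact hbB
        · exact hKBs hx
      have := Finset.card_le_card hs
      rw [Finset.card_insert_of_notMem hbKB, lenB] at this
      omega
    · funext I
      unfold comb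
      by_cases hqI : q ∈ I
      · rw [if_pos hqI]
        by_contra hne
        have := (supp I hne).1 hqI
        exact hq (List.mem_toFinset.1 this)
      · rw [if_neg hqI]
        have i1 : I ∩ A.toFinset ⊆ A.toFinset := Finset.inter_subset_right
        have i2 : Disjoint (I \ A.toFinset) A.toFinset := Finset.sdiff_disjoint
        have i3 : q ∉ I ∩ A.toFinset := fun h => hqI (Finset.mem_inter.1 h).1
        have i4 : q ∉ I \ A.toFinset := fun h => hqI (Finset.mem_sdiff.1 h).1
        have i5 : (I ∩ A.toFinset) ∪ (I \ A.toFinset) = I := by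
          rw [Finset.union_comm]; exact Finset.sdiff_union_inter I A.toFinset
        beta_reduce
        rw [if_neg i3, if_pos (Finset.mem_insert_self q _), vA1 _ i1, vA2 _ i1, vB1 _ i2 i4,
          vB2 _ i2 i4]
        have t1 : (I ∩ A.toFinset).card ≠ d + 1 → z ((I ∩ A.toFinset) ∪ KB) = 0 := by
          intro h
          by_contra hne
          have := hcard _ _ i1 hKBd hne
          omega
        have t2 : (I ∩ A.toFinset).card ≠ d → z ((I ∩ A.toFinset) ∪ insert b KB) = 0 := by
          intro h
          by_contra hne
          have := hcard _ _ i1 hbKBd hne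
          rw [Finset.card_insert_of_notMem hbKB] at this
          omega
        by_cases c1 : (I ∩ A.toFinset).card = d + 1
        · rw [t2 (by omega)]
          have h1 := hRk L A R r (d + 1) hn z hz (Or.inl fun J hJ => by
            rcases hlev J hJ with h | h <;> omega) (I ∩ A.toFinset) KB (insert a KA)
            (I \ A.toFinset) i1 haKAs c1 (by rw [Finset.card_insert_of_notMem haKA, hKd]) hKBd i2
          rw [i5, k2] at h1
          have h2 : z I = 1 / z (insert a K) * (z I * z (insert a K)) := by
            field_simp
          rw [h2, ← h1]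
          ring
        · by_cases c2 : (I ∩ A.toFinset).card = d
          · rw [t1 c1]
            have h1 := hRk L A R r d hn z hz (Or.inr fun J hJ => by
              rcases hlev J hJ with h | h <;> omega) (I ∩ A.toFinset) (insert b KB) KA
              (I \ A.toFinset) i1 hKAs c2 hKd hbKBd i2
            rw [i5, k1] at h1
            have h2 : z I = 1 / z (insert b K) * (z I * z (insert b K)) := by
              field_simp
            rw [h2, ← h1]
            ring
          · rw [t1 c1, t2 c2]
            have : z I = 0 := by
              by_contra hne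
              rcases hlev I hne with h | h
              · exact c2 h
              · exact c1 h
            rw [this]
            ring
  · right
    -- only one level
    have hex : ∃ K, z K ≠ 0 := by
      by_contra hcon
      push Not at hcon
      exact hz0 (funext hcon)
    obtain ⟨K, hKne⟩ := hex
    have honly : ∃ a, (a = d ∨ a = d + 1) ∧ ∀ I, z I ≠ 0 → (I ∩ A.toFinset).card = a := by
      by_cases h1 : ∃ I, z I ≠ 0 ∧ (I ∩ A.toFinset).card = d
      · refine ⟨d, Or.inl rfl, ?_⟩
        intro I hI
        rcases hlev I hI with h | h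
        · exact h
        · exact absurd ⟨h1, I, hI, h⟩ hboth
      · refine ⟨d + 1, Or.inr rfl, ?_⟩
        intro I hI
        rcases hlev I hI with h | h
        · exact absurd ⟨I, hI, h⟩ h1
        · exact h
    obtain ⟨a, had, ha⟩ := honly
    set KA := K ∩ A.toFinset with hKA
    set KB := K \ A.toFinset with hKB
    have hK : KA ∪ KB = K := by rw [Finset.union_comm]; exact Finset.sdiff_union_inter K A.toFinset
    have hKAs : KA ⊆ A.toFinset := Finset.inter_subset_right
    have hKBs : KB ⊆ B := sB K hKne
    have hKBd : Disjoint KB A.toFinset := Finset.sdiff_disjoint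
    have hKAc : KA.card = a := ha K hKne
    have hKBc : a + KB.card = r := by
      have := csplit K
      rw [← hKA, ← hKB, hKAc, (supp K hKne).2] at this
      exact this
    have hA1 := minor_mem hMin hn hz (B \ KB) KB (hKBs.trans hBl) (by omega)
      (Finset.sdiff_subset.trans hBl) Finset.sdiff_disjoint
    rw [Finset.sdiff_union_of_subset hKBs, show r - KB.card = a by omega] at hA1
    have hB1 := minor_mem hMin hn hz (A.toFinset \ KA) KA (hKAs.trans hAl) (by omega)
      (Finset.sdiff_subset.trans hAl) Finset.sdiff_disjoint
    rw [Finset.sdiff_union_of_subset hKAs, hKAc] at hB1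
    have fA : ((L ++ A ++ R).filter fun x => decide (x ∉ B)) = A := by
      rw [List.filter_append, List.filter_append, filter_none, filter_all, filter_none,
        List.append_nil, List.nil_append]
      · intro x hx
        rw [decide_eq_false_iff_not, not_not, hBmem]
        exact Or.inr hx
      · intro x hx
        rw [decide_eq_true_iff]
        exact Finset.disjoint_left.1 hABd (List.mem_toFinset.2 hx)
      · intro x hx
        rw [decide_eq_false_iff_not, not_not, hBmem]
        exact Or.inl hx
    have fB : ((L ++ A ++ R).filter fun x => decide (x ∉ A.toFinset)) = L ++ R := by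
      rw [List.filter_append, List.filter_append, filter_all, filter_none, filter_all,
        List.append_nil]
      · intro x hx
        rw [decide_eq_true_iff, List.mem_toFinset]
        exact fun h => hAR x h hx
      · intro x hx
        rw [decide_eq_false_iff_not, not_not, List.mem_toFinset]
        exact hx
      · intro x hx
        rw [decide_eq_true_iff, List.mem_toFinset]
        exact hLA x hx
    rw [fA] at hA1
    rw [fB] at hB1
    have pK : 0 < z K := lt_of_le_of_ne (hpos _) (Ne.symm hKne)
    have vA : ∀ X : Finset ℕ, X ⊆ A.toFinset → minorv (B \ KB) KB z X = z (X ∪ KB) := by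
      intro X hX
      unfold minorv
      rw [if_pos]
      rw [Finset.sdiff_union_of_subset hKBs]
      exact hABd.mono_left hX
    have vB : ∀ X : Finset ℕ, Disjoint X A.toFinset →
        minorv (A.toFinset \ KA) KA z X = z (KA ∪ X) := by
      intro X hX
      unfold minorv
      rw [if_pos, Finset.union_comm]
      rw [Finset.sdiff_union_of_subset hKAs]
      exact hX
    refine ⟨a, had, by omega, fun I => (if a ∈ I then 1 / z K else 1 / z K) *
      minorv (B \ KB) KB z I, xv_scale hA1 a _ _ (by positivity),
      minorv (A.toFinset \ KA) KA z, hB1, ?_, minorv_nonneg hpos, ?_, ?_, ?_⟩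
    · intro I
      have := minorv_nonneg (D := B \ KB) (E := KB) hpos I
      show 0 ≤ (if a ∈ I then 1 / z K else 1 / z K) * minorv (B \ KB) KB z I
      rw [ite_self]
      positivity
    · intro h0
      have h1 := congrFun h0 KA
      simp only [ite_self, Pi.zero_apply] at h1
      rw [vA KA hKAs, hK] at h1
      have : 1 / z K * z K ≠ 0 := by positivity
      exact this h1
    · intro h0
      have h1 := congrFun h0 KB
      rw [vB KB hKBd, hK] at h1
      exact hKne h1
    · funext I
      unfold prodv
      have i1 : I ∩ A.toFinset ⊆ A.toFinset := Finset.inter_subset_right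
      have i2 : Disjoint (I \ A.toFinset) A.toFinset := Finset.sdiff_disjoint
      have i5 : (I ∩ A.toFinset) ∪ (I \ A.toFinset) = I := by
        rw [Finset.union_comm]; exact Finset.sdiff_union_inter I A.toFinset
      beta_reduce
      rw [ite_self, vA _ i1, vB _ i2]
      by_cases c1 : (I ∩ A.toFinset).card = a
      · have h1 := hRk L A R r a hn z hz (Or.inl fun J hJ => (ha J hJ).le) (I ∩ A.toFinset) KB KA
          (I \ A.toFinset) i1 hKAs c1 hKAc hKBd i2
        rw [i5, hK] at h1
        have h2 : z I = 1 / z K * (z I * z K) := by field_simp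
        rw [h2, ← h1]
        ring
      · have h1 : z I = 0 := by
          by_contra hne
          exact c1 (ha I hne)
        have h2 : z ((I ∩ A.toFinset) ∪ KB) = 0 := by
          by_contra hne
          have := hcard _ _ i1 hKBd hne
          omega
        rw [h1, h2]
        ring

end ABCT.H13
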