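import Pool.Agent.Helper32_ABCT.Stmts2

/-!
# ABCT, module VRK1: block product formula (MP_a17fcb_ag)
-/

open MvPolynomial

namespace ABCT.H13

open ABCT

/-- support of a vector of the closure -/
theorem xv_supp {l : List ℕ} {r : ℕ} {z : Finset ℕ → ℝ} (hz : z ∈ XV l r) {I : Finset ℕ}
    (h : z I ≠ 0) : I ∈ l.toFinset.powersetCard r := by
  by_contra hI
  have := hz (X I) (by intro κ c t; rw [aeval_X]; unfold Q; rw [if_neg hI])
  rw [aeval_X] at this
  exact h (by exact_mod_cast this)

/-! ### block determinants -/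

section blocks

variable {α β : Type} [Fintype α] [Fintype β] [DecidableEq α] [DecidableEq β]

/-- matrix with the columns `v`, `w` -/
def blk (v : α → α ⊕ β → ℝ) (w : β → α ⊕ β → ℝ) : Matrix (α ⊕ β) (α ⊕ β) ℝ :=
  Matrix.of fun i j => Sum.elim v w j i

theorem blk_left (v : α → α ⊕ β → ℝ) (w : β → α ⊕ β → ℝ) (C : Matrix α α ℝ) :
    (blk (fun k i => ∑ m, v m i * C m k) w).det = (blk v w).det * C.det := by
  have h : blk (fun k i => ∑ m, v m i * C m k) w = blk v w * Matrix.fromBlocks C 0 0 1 := by
    ext i j
    rw [Matrix.mul_apply, Fintype.sum_sum_type]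
    rcases j with k | k
    · simp [blk, Matrix.fromBlocks]
    · simp [blk, Matrix.fromBlocks, Matrix.one_apply]
  rw [h, Matrix.det_mul, Matrix.det_fromBlocks_zero₂₁, Matrix.det_one, mul_one]

theorem blk_right (v : α → α ⊕ β → ℝ) (w : β → α ⊕ β → ℝ) (C : Matrix β β ℝ) :
    (blk v (fun k i => ∑ m, w m i * C m k)).det = (blk v w).det * C.det := by
  have h : blk v (fun k i => ∑ m, w m i * C m k) = blk v w * Matrix.fromBlocks 1 0 0 C := by
    ext i j
    rw [Matrix.mul_apply, Fintype.sum_sum_type]
    rcases j with k | k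
    · simp [blk, Matrix.fromBlocks, Matrix.one_apply]
    · simp [blk, Matrix.fromBlocks]
  rw [h, Matrix.det_mul, Matrix.det_fromBlocks_zero₂₁, Matrix.det_one, one_mul]

omit [Fintype α] [Fintype β] in
theorem blk_updateCol_inr (v : α → α ⊕ β → ℝ) (w : β → α ⊕ β → ℝ) (j : β) (u : α ⊕ β → ℝ) :
    (blk v w).updateCol (Sum.inr j) u = blk v (Function.update w j u) := by
  ext i k
  rcases k with k | k
  · rw [Matrix.updateCol_ne (by simp)]; rfl
  · by_cases hk : k = j
    · subst hk
      rw [Matrix.updateCol_self]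
      show u i = Function.update w k u k i
      rw [Function.update_self]
    · rw [Matrix.updateCol_ne (by simpa using hk)]
      show w k i = Function.update w j u k i
      rw [Function.update_of_ne hk]

omit [Fintype α] [Fintype β] in
theorem blk_updateCol_inl (v : α → α ⊕ β → ℝ) (w : β → α ⊕ β → ℝ) (j : α) (u : α ⊕ β → ℝ) :
    (blk v w).updateCol (Sum.inl j) u = blk (Function.update v j u) w := by
  ext i k
  rcases k with k | k
  · by_cases hk : k = j
    · subst hk
      rw [Matrix.updateCol_self]
      show u i = Function.update v k u k i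
      rw [Function.update_self]
    · rw [Matrix.updateCol_ne (by simpa using hk)]
      show v k i = Function.update v j u k i
      rw [Function.update_of_ne hk]
  · rw [Matrix.updateCol_ne (by simp)]; rfl

theorem comb_left {v : α → α ⊕ β → ℝ} {w : β → α ⊕ β → ℝ} (h : (blk v w).det ≠ 0)
    (u : α ⊕ β → ℝ) (hu : ∀ j, (blk v (Function.update w j u)).det = 0) :
    ∃ c : α → ℝ, u = fun i => ∑ m, v m i * c m := by
  refine ⟨fun m => (blk v w).cramer u (Sum.inl m) / (blk v w).det, ?_⟩
  have h1 := Matrix.mulVec_cramer (blk v w) u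
  ext i
  have h2 := congrFun h1 i
  rw [Matrix.mulVec, dotProduct, Fintype.sum_sum_type] at h2
  have h3 : ∑ j : β, blk v w i (Sum.inr j) * (blk v w).cramer u (Sum.inr j) = 0 := by
    refine Finset.sum_eq_zero fun j _ => ?_
    rw [Matrix.cramer_apply, blk_updateCol_inr, hu j, mul_zero]
  rw [h3, add_zero, Pi.smul_apply, smul_eq_mul] at h2
  have h4 : ∑ m, v m i * ((blk v w).cramer u (Sum.inl m) / (blk v w).det) =
      (∑ m, blk v w i (Sum.inl m) * (blk v w).cramer u (Sum.inl m)) / (blk v w).det := by
    rw [Finset.sum_div]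
    refine Finset.sum_congr rfl fun m _ => ?_
    rw [mul_div_assoc]
    rfl
  rw [h4, h2, mul_div_cancel_left₀ _ h]

theorem comb_right {v : α → α ⊕ β → ℝ} {w : β → α ⊕ β → ℝ} (h : (blk v w).det ≠ 0)
    (u : α ⊕ β → ℝ) (hu : ∀ j, (blk (Function.update v j u) w).det = 0) :
    ∃ c : β → ℝ, u = fun i => ∑ m, w m i * c m := by
  refine ⟨fun m => (blk v w).cramer u (Sum.inr m) / (blk v w).det, ?_⟩
  have h1 := Matrix.mulVec_cramer (blk v w) u
  ext i
  have h2 := congrFun h1 i
  rw [Matrix.mulVec, dotProduct, Fintype.sum_sum_type] at h2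
  have h3 : ∑ j : α, blk v w i (Sum.inl j) * (blk v w).cramer u (Sum.inl j) = 0 := by
    refine Finset.sum_eq_zero fun j _ => ?_
    rw [Matrix.cramer_apply, blk_updateCol_inl, hu j, mul_zero]
  rw [h3, zero_add, Pi.smul_apply, smul_eq_mul] at h2
  have h4 : ∑ m, w m i * ((blk v w).cramer u (Sum.inr m) / (blk v w).det) =
      (∑ m, blk v w i (Sum.inr m) * (blk v w).cramer u (Sum.inr m)) / (blk v w).det := by
    rw [Finset.sum_div]
    refine Finset.sum_congr rfl fun m _ => ?_
    rw [mul_div_assoc]
    rfl
  rw [h4, h2, mul_div_cancel_left₀ _ h]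

/-- rank one relation, left block in a small space -/
theorem rk_left (v v' : α → α ⊕ β → ℝ) (w w' : β → α ⊕ β → ℝ)
    (h : ∀ x : β → α ⊕ β → ℝ, (x = w ∨ x = w') → (blk v x).det ≠ 0 →
      ∀ k j, (blk v (Function.update x j (v' k))).det = 0) :
    (blk v w).det * (blk v' w').det = (blk v w').det * (blk v' w).det := by
  have key : ∀ x : β → α ⊕ β → ℝ, (x = w ∨ x = w') → (blk v x).det ≠ 0 →
      (blk v w).det * (blk v' w').det = (blk v w').det * (blk v' w).det := by
    intro x hx hd
    have h1 : ∀ k, ∃ c : α → ℝ, v' k = fun i => ∑ m, v m i * c m := fun k =>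
      comb_left hd (v' k) (h x hx hd k)
    choose c hc using h1
    have h2 : v' = fun k i => ∑ m, v m i * (Matrix.of fun m k => c k m) m k := by
      funext k
      exact hc k
    rw [h2, blk_left, blk_left]
    ring
  by_cases h1 : (blk v w).det = 0
  · by_cases h2 : (blk v w').det = 0
    · rw [h1, h2]; ring
    · exact key w' (Or.inr rfl) h2
  · exact key w (Or.inl rfl) h1

/-- rank one relation, right block in a small space -/
theorem rk_right (v v' : α → α ⊕ β → ℝ) (w w' : β → α ⊕ β → ℝ)
    (h : ∀ x : α → α ⊕ β → ℝ, (x = v ∨ x = v') → (blk x w).det ≠ 0 →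
      ∀ k j, (blk (Function.update x j (w' k)) w).det = 0) :
    (blk v w).det * (blk v' w').det = (blk v w').det * (blk v' w).det := by
  have key : ∀ x : α → α ⊕ β → ℝ, (x = v ∨ x = v') → (blk x w).det ≠ 0 →
      (blk v w).det * (blk v' w').det = (blk v w').det * (blk v' w).det := by
    intro x hx hd
    have h1 : ∀ k, ∃ c : β → ℝ, w' k = fun i => ∑ m, w m i * c m := fun k =>
      comb_right hd (w' k) (h x hx hd k)
    choose c hc using h1
    have h2 : w' = fun k i => ∑ m, w m i * (Matrix.of fun m k => c k m) m k := by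
      funext k
      exact hc k
    rw [h2, blk_right, blk_right]
    ring
  by_cases h1 : (blk v w).det = 0
  · by_cases h2 : (blk v' w).det = 0
    · rw [h1, h2]; ring
    · exact key v' (Or.inr rfl) h2
  · exact key v (Or.inl rfl) h1

end blocks

/-! ### ordered enumerations -/

theorem exists_enum (l : List ℕ) (I : Finset ℕ) (hI : I ⊆ l.toFinset) (a : ℕ)
    (ha : I.card = a) : ∃ h : Fin a → ℕ, StrictMono (fun k => l.idxOf (h k)) ∧
      Finset.univ.image h = I := by
  have hinj : Set.InjOn (fun x => l.idxOf x) (I : Set ℕ) := by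
    intro x hx y hy hxy
    have hx' : x ∈ l := List.mem_toFinset.1 (hI hx)
    exact (List.idxOf_inj hx').1 hxy
  have hc : (I.image fun x => l.idxOf x).card = a := by
    rw [Finset.card_image_of_injOn hinj, ha]
  have hget : ∀ k : Fin a, ∃ x ∈ I, l.idxOf x = (I.image fun x => l.idxOf x).orderEmbOfFin hc k := by
    intro k
    have := Finset.orderEmbOfFin_mem (I.image fun x => l.idxOf x) hc k
    obtain ⟨x, hx, hx'⟩ := Finset.mem_image.1 this
    exact ⟨x, hx, hx'⟩
  choose h hI' hh using hget
  refine ⟨h, ?_, ?_⟩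
  · intro i j hij
    show l.idxOf (h i) < l.idxOf (h j)
    rw [hh, hh]
    exact (Finset.orderEmbOfFin _ hc).strictMono hij
  · apply Finset.eq_of_subset_of_card_le
    · intro x hx
      obtain ⟨k, _, rfl⟩ := Finset.mem_image.1 hx
      exact hI' k
    · rw [Finset.card_image_of_injective]
      · rw [Finset.card_univ, Fintype.card_fin, ha]
      · intro i j hij
        have := hh i
        rw [hij, hh j] at this
        exact ((Finset.orderEmbOfFin _ hc).injective this).symm

/-- the vector as a determinant, columns in any order -/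
theorem minors_perm {l : List ℕ} {r : ℕ} {z : Finset ℕ → ℝ} {γ : ℝ} {M : ℕ → Fin r → ℝ}
    (hM : ∀ p : Fin r → ℕ, StrictMono p → (∀ i, p i < l.length) →
      z (Finset.univ.image fun i => l.getD (p i) 0) =
        γ * (Matrix.of fun i j : Fin r => M (l.getD (p j) 0) i).det)
    (h : Fin r → ℕ) (hl : ∀ i, h i ∈ l) (σ : Equiv.Perm (Fin r))
    (hσ : StrictMono fun i => l.idxOf (h (σ i))) :
    z (Finset.univ.image h) = γ * ((Equiv.Perm.sign σ : ℤ) : ℝ) *
      (Matrix.of fun i j : Fin r => M (h j) i).det := by
  have hg : ∀ x ∈ l, l.getD (l.idxOf x) 0 = x := by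
    intro x hx
    have hlt := List.idxOf_lt_length_of_mem hx
    rw [List.getD_eq_getElem _ _ hlt]
    exact List.getElem_idxOf hlt
  have h1 := hM (fun i => l.idxOf (h (σ i))) hσ (fun i => List.idxOf_lt_length_of_mem (hl _))
  have h2 : (Finset.univ.image fun i => l.getD (l.idxOf (h (σ i))) 0) = Finset.univ.image h := by
    ext x
    simp only [Finset.mem_image, Finset.mem_univ, true_and]
    constructor
    · rintro ⟨i, rfl⟩
      exact ⟨σ i, (hg _ (hl _)).symm⟩
    · rintro ⟨i, rfl⟩
      refine ⟨σ.symm i, ?_⟩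
      rw [Equiv.apply_symm_apply, hg _ (hl _)]
  have h3 : (Matrix.of fun i j : Fin r => M (l.getD (l.idxOf (h (σ j))) 0) i) =
      (Matrix.of fun i j : Fin r => M (h j) i).submatrix id σ := by
    ext i j
    show M (l.getD (l.idxOf (h (σ j))) 0) i = M (h (σ j)) i
    rw [hg _ (hl _)]
  rw [h2, h3, Matrix.det_permute'] at h1
  rw [h1, mul_assoc]

theorem exists_sort {r : ℕ} (g : Fin r → ℕ) (hg : Function.Injective g) :
    ∃ σ : Equiv.Perm (Fin r), StrictMono (fun i => g (σ i)) :=
  ⟨Tuple.sort g, (Tuple.monotone_sort g).strictMono_of_injective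
    (hg.comp (Tuple.sort g).injective)⟩

/-- nonzero determinants give nonzero coordinates -/
theorem minors_ne {l : List ℕ} {r : ℕ} {z : Finset ℕ → ℝ} {γ : ℝ} {M : ℕ → Fin r → ℝ}
    (hM : ∀ p : Fin r → ℕ, StrictMono p → (∀ i, p i < l.length) →
      z (Finset.univ.image fun i => l.getD (p i) 0) =
        γ * (Matrix.of fun i j : Fin r => M (l.getD (p j) 0) i).det) (hγ : γ ≠ 0)
    (h : Fin r → ℕ) (hl : ∀ i, h i ∈ l)
    (hd : (Matrix.of fun i j : Fin r => M (h j) i).det ≠ 0) :
    Function.Injective h ∧ z (Finset.univ.image h) ≠ 0 := by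
  have hinj : Function.Injective h := by
    intro i j hij
    by_contra hne
    apply hd
    refine Matrix.det_zero_of_column_eq hne ?_
    intro k
    show M (h i) k = M (h j) k
    rw [hij]
  refine ⟨hinj, ?_⟩
  obtain ⟨σ, hσ⟩ := exists_sort (fun i => l.idxOf (h i)) (by
    intro i j hij
    exact hinj ((List.idxOf_inj (hl i)).1 hij))
  rw [minors_perm hM h hl σ hσ]
  refine mul_ne_zero (mul_ne_zero hγ ?_) hd
  have := (Equiv.Perm.sign σ).ne_zero
  exact_mod_cast this

theorem det_append {a b : ℕ} (M : ℕ → Fin (a + b) → ℝ) (hI : Fin a → ℕ) (hJ : Fin b → ℕ) :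
    (Matrix.of fun i j : Fin (a + b) => M (Fin.append hI hJ j) i).det =
      (blk (fun k s => M (hI k) (finSumFinEquiv s)) (fun k s => M (hJ k) (finSumFinEquiv s))).det := by
  rw [← Matrix.det_submatrix_equiv_self finSumFinEquiv]
  congr 1
  ext s t
  rcases t with t | t
  · show M (Fin.append hI hJ (finSumFinEquiv (Sum.inl t))) (finSumFinEquiv s) =
      M (hI t) (finSumFinEquiv s)
    rw [finSumFinEquiv_apply_left, Fin.append_left]
  · show M (Fin.append hI hJ (finSumFinEquiv (Sum.inr t))) (finSumFinEquiv s) =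
      M (hJ t) (finSumFinEquiv s)
    rw [finSumFinEquiv_apply_right, Fin.append_right]

/-! ### positions -/

theorem idx_A {L A R : List ℕ} (hn : (L ++ A ++ R).Nodup) {x : ℕ} (hx : x ∈ A) :
    L.length ≤ (L ++ A ++ R).idxOf x ∧ (L ++ A ++ R).idxOf x < L.length + A.length := by
  have h1 : x ∈ L ++ A := List.mem_append_right _ hx
  have h2 : x ∉ L := by
    intro h
    have := (List.nodup_append.1 (List.nodup_append.1 hn).1).2.2 x h x hx
    exact this rfl
  rw [List.idxOf_append_of_mem h1, List.idxOf_append_of_notMem h2]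
  have := List.idxOf_lt_length_of_mem hx
  omega

theorem idx_L {L A R : List ℕ} {x : ℕ} (hx : x ∈ L) :
    (L ++ A ++ R).idxOf x < L.length := by
  have h1 : x ∈ L ++ A := List.mem_append_left _ hx
  rw [List.idxOf_append_of_mem h1, List.idxOf_append_of_mem hx]
  exact List.idxOf_lt_length_of_mem hx

theorem idx_R {L A R : List ℕ} {x : ℕ} (hL : x ∉ L) (hA : x ∉ A) :
    L.length + A.length ≤ (L ++ A ++ R).idxOf x := by
  have h1 : x ∉ L ++ A := by
    rw [List.mem_append]
    tauto
  rw [List.idxOf_append_of_notMem h1, List.length_append]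
  omega

theorem pattern {L A R : List ℕ} {a b : ℕ} (hn : (L ++ A ++ R).Nodup) {hI hI' : Fin a → ℕ}
    {hJ : Fin b → ℕ} (mI : StrictMono fun k => (L ++ A ++ R).idxOf (hI k))
    (mI' : StrictMono fun k => (L ++ A ++ R).idxOf (hI' k))
    (aI : ∀ k, hI k ∈ A) (aI' : ∀ k, hI' k ∈ A) (aJ : ∀ k, hJ k ∉ A) (s t : Fin (a + b))
    (h : (L ++ A ++ R).idxOf (Fin.append hI hJ s) < (L ++ A ++ R).idxOf (Fin.append hI hJ t)) :
    (L ++ A ++ R).idxOf (Fin.append hI' hJ s) < (L ++ A ++ R).idxOf (Fin.append hI' hJ t) := by
  revert h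
  refine Fin.addCases (fun i => ?_) (fun i => ?_) s <;>
    refine Fin.addCases (fun j => ?_) (fun j => ?_) t
  · rw [Fin.append_left, Fin.append_left, Fin.append_left, Fin.append_left]
    intro h
    exact mI' (mI.lt_iff_lt.1 h)
  · rw [Fin.append_left, Fin.append_left, Fin.append_right, Fin.append_right]
    intro h
    by_cases hL : hJ j ∈ L
    · have h1 := idx_L (A := A) (R := R) hL
      have h2 := idx_A hn (aI i)
      omega
    · have h1 := idx_R (R := R) hL (aJ j)
      have h2 := idx_A hn (aI' i)
      omega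
  · rw [Fin.append_left, Fin.append_left, Fin.append_right, Fin.append_right]
    intro h
    by_cases hL : hJ i ∈ L
    · have h1 := idx_L (A := A) (R := R) hL
      have h2 := idx_A hn (aI' j)
      omega
    · have h1 := idx_R (R := R) hL (aJ i)
      have h2 := idx_A hn (aI j)
      omega
  · rw [Fin.append_right, Fin.append_right, Fin.append_right, Fin.append_right]
    exact id

theorem image_append {a b : ℕ} (hI : Fin a → ℕ) (hJ : Fin b → ℕ) :
    Finset.univ.image (Fin.append hI hJ) = Finset.univ.image hI ∪ Finset.univ.image hJ := by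
  ext x
  simp only [Finset.mem_image, Finset.mem_univ, true_and, Finset.mem_union]
  constructor
  · rintro ⟨i, rfl⟩
    refine Fin.addCases (fun i => ?_) (fun i => ?_) i
    · rw [Fin.append_left]; exact Or.inl ⟨i, rfl⟩
    · rw [Fin.append_right]; exact Or.inr ⟨i, rfl⟩
  · rintro (⟨i, rfl⟩ | ⟨i, rfl⟩)
    · exact ⟨Fin.castAdd b i, by rw [Fin.append_left]⟩
    · exact ⟨Fin.natAdd a i, by rw [Fin.append_right]⟩

/-- VRK1 -/
theorem rankOne (hMat : MatStmt) : RankOneStmt := by
  intro L A R r a hn z hz hcond I J I' J' hIA hI'A hIc hI'c hJA hJ'A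
  by_cases hz0 : z = 0
  · rw [hz0]; simp
  have hAl : A.toFinset ⊆ (L ++ A ++ R).toFinset := by
    intro x hx
    rw [List.mem_toFinset] at hx ⊢
    simp [hx]
  have hdis : Disjoint I J := (hJA.mono_right hIA).symm
  have hdis' : Disjoint I' J' := (hJ'A.mono_right hI'A).symm
  have hdis2 : Disjoint I J' := (hJ'A.mono_right hIA).symm
  have hdis2' : Disjoint I' J := (hJA.mono_right hI'A).symm
  -- trivial cases
  by_cases hJ : J ⊆ (L ++ A ++ R).toFinset ∧ a + J.card = r
  swap
  · have h0 : ∀ K : Finset ℕ, K ⊆ A.toFinset → K.card = a → Disjoint K J → z (K ∪ J) = 0 := by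
      intro K _ hKc hKJ
      by_contra hne
      have := Finset.mem_powersetCard.1 (xv_supp hz hne)
      apply hJ
      refine ⟨(Finset.subset_union_right).trans this.1, ?_⟩
      rw [← this.2, Finset.card_union_of_disjoint hKJ, hKc]
    rw [h0 I hIA hIc hdis, h0 I' hI'A hI'c hdis2']
    ring
  by_cases hJ' : J' ⊆ (L ++ A ++ R).toFinset ∧ a + J'.card = r
  swap
  · have h0 : ∀ K : Finset ℕ, K ⊆ A.toFinset → K.card = a → Disjoint K J' → z (K ∪ J') = 0 := by
      intro K _ hKc hKJ
      by_contra hne
      have := Finset.mem_powersetCard.1 (xv_supp hz hne)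
      apply hJ'
      refine ⟨(Finset.subset_union_right).trans this.1, ?_⟩
      rw [← this.2, Finset.card_union_of_disjoint hKJ, hKc]
    rw [h0 I hIA hIc hdis2, h0 I' hI'A hI'c hdis']
    ring
  obtain ⟨hJl, hJc⟩ := hJ
  obtain ⟨hJ'l, hJ'c⟩ := hJ'
  obtain ⟨b, rfl⟩ : ∃ b, r = a + b := ⟨J.card, hJc.symm⟩
  have hJc2 : J.card = b := by omega
  have hJ'c2 : J'.card = b := by omega
  obtain ⟨γ, M, hM⟩ := hMat _ _ hn z hz hz0
  have hγ : γ ≠ 0 := by
    intro h0
    apply hz0
    funext K
    by_contra hne
    have hK := Finset.mem_powersetCard.1 (xv_supp hz hne)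
    obtain ⟨h, hm, himg⟩ := exists_enum (L ++ A ++ R) K hK.1 (a + b) hK.2
    have h1 := minors_perm hM h (by
      intro i
      have : h i ∈ K := by rw [← himg]; exact Finset.mem_image_of_mem _ (Finset.mem_univ i)
      exact List.mem_toFinset.1 (hK.1 this)) (Equiv.refl _) hm
    rw [himg, h0] at h1
    apply hne
    rw [h1]
    simp
  obtain ⟨hI, mI, iI⟩ := exists_enum _ I (hIA.trans hAl) a hIc
  obtain ⟨hI', mI', iI'⟩ := exists_enum _ I' (hI'A.trans hAl) a hI'c
  obtain ⟨hj, mJ, iJ⟩ := exists_enum _ J hJl b hJc2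
  obtain ⟨hj', mJ', iJ'⟩ := exists_enum _ J' hJ'l b hJ'c2
  have memI : ∀ k, hI k ∈ A := fun k => List.mem_toFinset.1 (hIA (by
    rw [← iI]; exact Finset.mem_image_of_mem _ (Finset.mem_univ k)))
  have memI' : ∀ k, hI' k ∈ A := fun k => List.mem_toFinset.1 (hI'A (by
    rw [← iI']; exact Finset.mem_image_of_mem _ (Finset.mem_univ k)))
  have memj : ∀ k, hj k ∈ J := fun k => by
    rw [← iJ]; exact Finset.mem_image_of_mem _ (Finset.mem_univ k)
  have memj' : ∀ k, hj' k ∈ J' := fun k => by
    rw [← iJ']; exact Finset.mem_image_of_mem _ (Finset.mem_univ k)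
  have nJ : ∀ k, hj k ∉ A := fun k h => Finset.disjoint_left.1 hJA (memj k) (List.mem_toFinset.2 h)
  have nJ' : ∀ k, hj' k ∉ A := fun k h =>
    Finset.disjoint_left.1 hJ'A (memj' k) (List.mem_toFinset.2 h)
  have memIl : ∀ (x : ℕ), x ∈ A → x ∈ L ++ A ++ R := fun x hx => by simp [hx]
  have injI : Function.Injective hI := fun i j hij => mI.injective (by
    show (L ++ A ++ R).idxOf (hI i) = (L ++ A ++ R).idxOf (hI j)
    rw [hij])
  have injI' : Function.Injective hI' := fun i j hij => mI'.injective (by
    show (L ++ A ++ R).idxOf (hI' i) = (L ++ A ++ R).idxOf (hI' j)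
    rw [hij])
  -- values
  have val : ∀ (x : Fin b → ℕ), (∀ k, x k ∉ A) → (∀ k, x k ∈ L ++ A ++ R) →
      (StrictMono fun k => (L ++ A ++ R).idxOf (x k)) →
      ∃ ε : ℝ, z (I ∪ Finset.univ.image x) = ε * (blk (fun k s => M (hI k) (finSumFinEquiv s))
          (fun k s => M (x k) (finSumFinEquiv s))).det ∧
        z (I' ∪ Finset.univ.image x) = ε * (blk (fun k s => M (hI' k) (finSumFinEquiv s))
          (fun k s => M (x k) (finSumFinEquiv s))).det := by
    intro x hxA hxl hxm
    have hinj : Function.Injective fun s => (L ++ A ++ R).idxOf (Fin.append hI x s) := by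
      intro s t
      refine Fin.addCases (fun i => ?_) (fun i => ?_) s <;>
        refine Fin.addCases (fun j => ?_) (fun j => ?_) t <;>
        simp only [Fin.append_left, Fin.append_right] <;> intro h
      · rw [mI.injective h]
      · exfalso
        have := (List.idxOf_inj (memIl _ (memI i))).1 h
        exact hxA j (this ▸ memI i)
      · exfalso
        have := (List.idxOf_inj (hxl i)).1 h
        exact hxA i (this ▸ memI j)
      · rw [hxm.injective h]
    obtain ⟨σ, hσ⟩ := exists_sort _ hinj
    have hσ' : StrictMono fun i => (L ++ A ++ R).idxOf (Fin.append hI' x (σ i)) := by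
      intro i j hij
      exact pattern hn mI mI' memI memI' hxA _ _ (hσ hij)
    have hmem : ∀ (y : Fin a → ℕ), (∀ k, y k ∈ A) → ∀ s, Fin.append y x s ∈ L ++ A ++ R := by
      intro y hy s
      refine Fin.addCases (fun i => ?_) (fun i => ?_) s
      · rw [Fin.append_left]; exact memIl _ (hy i)
      · rw [Fin.append_right]; exact hxl i
    refine ⟨γ * ((Equiv.Perm.sign σ : ℤ) : ℝ), ?_, ?_⟩
    · have h1 := minors_perm hM (Fin.append hI x) (hmem hI memI) σ hσ
      rw [image_append, iI, det_append] at h1
      exact h1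
    · have h1 := minors_perm hM (Fin.append hI' x) (hmem hI' memI') σ hσ'
      rw [image_append, iI', det_append] at h1
      exact h1
  obtain ⟨ε, e1, e2⟩ := val hj nJ (fun k => List.mem_toFinset.1 (hJl (memj k))) mJ
  obtain ⟨ε', e1', e2'⟩ := val hj' nJ' (fun k => List.mem_toFinset.1 (hJ'l (memj' k))) mJ'
  rw [iJ] at e1 e2
  rw [iJ'] at e1' e2'
  rw [e1, e2, e1', e2']
  suffices h : (blk (fun k s => M (hI k) (finSumFinEquiv s))
        (fun k s => M (hj k) (finSumFinEquiv s))).det *
      (blk (fun k s => M (hI' k) (finSumFinEquiv s))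
        (fun k s => M (hj' k) (finSumFinEquiv s))).det =
      (blk (fun k s => M (hI k) (finSumFinEquiv s))
        (fun k s => M (hj' k) (finSumFinEquiv s))).det *
      (blk (fun k s => M (hI' k) (finSumFinEquiv s))
        (fun k s => M (hj k) (finSumFinEquiv s))).det by
    linear_combination (ε * ε') * h
  rcases hcond with hc | hc
  · refine rk_left _ _ _ _ ?_
    have main : ∀ x : Fin b → ℕ, (∀ k, x k ∈ L ++ A ++ R) → ∀ k j,
        (blk (fun k s => M (hI k) (finSumFinEquiv s))
          (Function.update (fun k s => M (x k) (finSumFinEquiv s)) j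
            (fun s => M (hI' k) (finSumFinEquiv s)))).det = 0 := by
      intro x hx k j
      by_contra hne
      have h1 : Function.update (fun (k : Fin b) (s : Fin a ⊕ Fin b) => M (x k) (finSumFinEquiv s)) j
          (fun s => M (hI' k) (finSumFinEquiv s)) =
          fun m s => M (Function.update x j (hI' k) m) (finSumFinEquiv s) := by
        funext m s
        by_cases hm : m = j
        · subst hm; simp
        · simp [Function.update_of_ne hm]
      rw [h1, ← det_append] at hne
      obtain ⟨hinj, hzne⟩ := minors_ne hM hγ (Fin.append hI (Function.update x j (hI' k))) (by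
        intro s
        refine Fin.addCases (fun i => ?_) (fun i => ?_) s
        · rw [Fin.append_left]; exact memIl _ (memI i)
        · rw [Fin.append_right]
          by_cases hi : i = j
          · subst hi; rw [Function.update_self]; exact memIl _ (memI' k)
          · rw [Function.update_of_ne hi]; exact hx i) hne
      have hcard := hc _ hzne
      have hnot : hI' k ∉ I := by
        rw [← iI]
        intro hmem
        obtain ⟨m, _, hm⟩ := Finset.mem_image.1 hmem
        have h2 : Fin.append hI (Function.update x j (hI' k)) (Fin.castAdd b m) =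
            Fin.append hI (Function.update x j (hI' k)) (Fin.natAdd a j) := by
          rw [Fin.append_left, Fin.append_right, Function.update_self, hm]
        have h3 := congrArg Fin.val (hinj h2)
        rw [Fin.val_castAdd, Fin.val_natAdd] at h3
        have := m.2
        omega
      have hsub : insert (hI' k) I ⊆
          Finset.univ.image (Fin.append hI (Function.update x j (hI' k))) ∩ A.toFinset := by
        intro y hy
        rw [Finset.mem_inter, image_append, Finset.mem_union, iI]
        rcases Finset.mem_insert.1 hy with rfl | hy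
        · refine ⟨Or.inr ?_, List.mem_toFinset.2 (memI' k)⟩
          exact Finset.mem_image.2 ⟨j, Finset.mem_univ _, Function.update_self _ _ _⟩
        · exact ⟨Or.inl hy, hIA hy⟩
      have hcc := Finset.card_le_card hsub
      rw [Finset.card_insert_of_notMem hnot, hIc] at hcc
      omega
    rintro x (rfl | rfl) _ k j
    · exact main hj (fun k => List.mem_toFinset.1 (hJl (memj k))) k j
    · exact main hj' (fun k => List.mem_toFinset.1 (hJ'l (memj' k))) k j
  · refine rk_right _ _ _ _ ?_
    have main : ∀ x : Fin a → ℕ, (∀ k, x k ∈ A) → ∀ k j,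
        (blk (Function.update (fun k s => M (x k) (finSumFinEquiv s)) j
            (fun s => M (hj' k) (finSumFinEquiv s)))
          (fun k s => M (hj k) (finSumFinEquiv s))).det = 0 := by
      intro x hx k j
      by_contra hne
      have h1 : Function.update (fun (k : Fin a) (s : Fin a ⊕ Fin b) => M (x k) (finSumFinEquiv s)) j
          (fun s => M (hj' k) (finSumFinEquiv s)) =
          fun m s => M (Function.update x j (hj' k) m) (finSumFinEquiv s) := by
        funext m s
        by_cases hm : m = j
        · subst hm; simp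
        · simp [Function.update_of_ne hm]
      rw [h1, ← det_append] at hne
      obtain ⟨hinj, hzne⟩ := minors_ne hM hγ (Fin.append (Function.update x j (hj' k)) hj) (by
        intro s
        refine Fin.addCases (fun i => ?_) (fun i => ?_) s
        · rw [Fin.append_left]
          by_cases hi : i = j
          · subst hi; rw [Function.update_self]; exact List.mem_toFinset.1 (hJ'l (memj' k))
          · rw [Function.update_of_ne hi]; exact memIl _ (hx i)
        · rw [Fin.append_right]; exact List.mem_toFinset.1 (hJl (memj i))) hne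
      have hcard := hc _ hzne
      have hsub : Finset.univ.image (Fin.append (Function.update x j (hj' k)) hj) ∩ A.toFinset ⊆
          (Finset.univ.erase j).image x := by
        intro y hy
        rw [Finset.mem_inter, image_append, Finset.mem_union, List.mem_toFinset] at hy
        obtain ⟨hy1 | hy1, hy2⟩ := hy
        · obtain ⟨m, _, rfl⟩ := Finset.mem_image.1 hy1
          by_cases hm : m = j
          · subst hm
            rw [Function.update_self] at hy2
            exact absurd hy2 (nJ' k)
          · rw [Function.update_of_ne hm] at hy2 ⊢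
            exact Finset.mem_image.2 ⟨m, Finset.mem_erase.2 ⟨hm, Finset.mem_univ _⟩, rfl⟩
        · obtain ⟨m, _, rfl⟩ := Finset.mem_image.1 hy1
          exact absurd hy2 (nJ m)
      have hcc := (Finset.card_le_card hsub).trans Finset.card_image_le
      rw [Finset.card_erase_of_mem (Finset.mem_univ j), Finset.card_univ, Fintype.card_fin] at hcc
      have := j.2
      omega
    rintro x (rfl | rfl) _ k j
    · exact main hI memI k j
    · exact main hI' memI' k j

end ABCT.H13
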